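import Mathlib

/-!
# Frobenius nonclassical hypersurfaces and a separable Gauss map on a curve

For every `n ≥ 3`, every prime `p > n` and every finite field of characteristic `p` with `q`
elements, the cone in projective `n`-space over the surface
`x1 x2 (x2^(q-1) - x1^(q-1))^2 + (x0^q - x0 x1^(q-1)) (x3^q - x3 x2^(q-1)) = 0` is irreducible,
Frobenius nonclassical, and contains the rational curve `(s^3 : s^2 t : s t^2 : t^3 : s^3 : ⋯)`
on which its Gauss map is separable.
-/

namespace Pool.Agent.Results.MP_291982_ag.TwistedCubic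

open MvPolynomial

section Defs

/-- `F`, with coefficients in the finite field `Fq`, defines a hypersurface of projective
`n`-space over `k` (`F` is a form of positive degree without repeated factors over `k`) which is
Frobenius nonclassical: `F` divides `∑ i, x_i ^ q * ∂F/∂x_i` where `q` is the number of elements
of `Fq`. -/
structure IsFrobeniusNonclassical (Fq k : Type*) [Field Fq] [Fintype Fq] [Field k] [Algebra Fq k]
    {n : ℕ} (F : MvPolynomial (Fin (n + 1)) Fq) : Prop where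
  /-- `F` is a form of positive degree -/
  homogeneous : ∃ d : ℕ, 0 < d ∧ F.IsHomogeneous d
  /-- `F` has no repeated factors -/
  squarefree : Squarefree (map (algebraMap Fq k) F)
  /-- the divisibility condition -/
  dvd : F ∣ ∑ i, X i ^ Fintype.card Fq * pderiv i F

/-- `P` is the homogeneous ideal of an irreducible curve in projective `n`-space over `k`: a
homogeneous prime ideal whose homogeneous coordinate ring has transcendence degree two. -/
structure IsIrreducibleCurve {k : Type*} [Field k] {n : ℕ}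
    (P : Ideal (MvPolynomial (Fin (n + 1)) k)) : Prop where
  /-- the ideal is prime -/
  prime : P.IsPrime
  /-- the ideal is homogeneous: with a polynomial it contains its homogeneous components -/
  homogeneous : ∀ F ∈ P, ∀ d : ℕ, homogeneousComponent d F ∈ P
  /-- the variety is one-dimensional -/
  trdeg : Algebra.trdeg k (MvPolynomial (Fin (n + 1)) k ⧸ P) = 2

/-- The variety with homogeneous ideal `P` is defined over `Fq`: `P` is generated by polynomials
with coefficients in `Fq`. -/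
def IsDefinedOver (Fq : Type*) {k : Type*} [Field Fq] [Field k] [Algebra Fq k] {n : ℕ}
    (P : Ideal (MvPolynomial (Fin (n + 1)) k)) : Prop :=
  ∃ P₀ : Ideal (MvPolynomial (Fin (n + 1)) Fq), P = P₀.map (map (algebraMap Fq k))

/-- The restriction of the Gauss map of `F = 0` to the curve with ideal `P` is inseparable: every
ratio `F_i / F_j` defined on the curve (that is, with `F_j ∉ P`) is, in the function field of the
curve, the `p`-th power of a ratio `a / b` of two forms of the same degree with `b ∉ P`. -/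
def GaussInseparableOn (p : ℕ) {k : Type*} [Field k] {n : ℕ} (F : MvPolynomial (Fin (n + 1)) k)
    (P : Ideal (MvPolynomial (Fin (n + 1)) k)) : Prop :=
  ∀ i j : Fin (n + 1), pderiv j F ∉ P →
    ∃ (e : ℕ) (a b : MvPolynomial (Fin (n + 1)) k), a.IsHomogeneous e ∧ b.IsHomogeneous e ∧
      b ∉ P ∧ pderiv i F * b ^ p - pderiv j F * a ^ p ∈ P

end Defs

section Form

variable {A : Type*} [CommRing A]

/-- the form, with `q = l + 2` -/
def ff (l : ℕ) (x0 x1 x2 x3 : A) : A :=
  x1 * x2 * (x2 ^ (l + 1) - x1 ^ (l + 1)) ^ 2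
    + (x0 ^ (l + 2) - x0 * x1 ^ (l + 1)) * (x3 ^ (l + 2) - x3 * x2 ^ (l + 1))

lemma map_ff {B : Type*} [CommRing B] (φ : A →+* B) (l : ℕ) (x0 x1 x2 x3 : A) :
    φ (ff l x0 x1 x2 x3) = ff l (φ x0) (φ x1) (φ x2) (φ x3) := by
  simp only [ff, map_add, map_sub, map_mul, map_pow]

/-- partial derivative -/
def g0 (l : ℕ) (x1 x2 x3 : A) : A := -(x1 ^ (l + 1) * (x3 ^ (l + 2) - x3 * x2 ^ (l + 1)))
/-- partial derivative -/
def g1 (l : ℕ) (x0 x1 x2 x3 : A) : A :=
  x2 * (x2 ^ (2 * l + 2) - x1 ^ (2 * l + 2)) + x0 * x1 ^ l * (x3 ^ (l + 2) - x3 * x2 ^ (l + 1))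
/-- partial derivative -/
def g2 (l : ℕ) (x0 x1 x2 x3 : A) : A :=
  -(x1 * (x2 ^ (2 * l + 2) - x1 ^ (2 * l + 2))) + (x0 ^ (l + 2) - x0 * x1 ^ (l + 1)) * x3 * x2 ^ l
/-- partial derivative -/
def g3 (l : ℕ) (x0 x1 x2 : A) : A := -((x0 ^ (l + 2) - x0 * x1 ^ (l + 1)) * x2 ^ (l + 1))

lemma chain {R : Type*} [CommRing R] [Algebra R A] (D : Derivation R A A) (l : ℕ)
    (hl : ((l + 2 : ℕ) : A) = 0) (x0 x1 x2 x3 : A) :
    D (ff l x0 x1 x2 x3) = g0 l x1 x2 x3 * D x0 + g1 l x0 x1 x2 x3 * D x1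
      + g2 l x0 x1 x2 x3 * D x2 + g3 l x0 x1 x2 * D x3 := by
  have hl' : (l : A) = -2 := by push_cast at hl; linear_combination hl
  have h1 : ∀ a, D (a ^ (l + 1)) = -(a ^ l * D a) := by
    intro a
    rw [D.leibniz_pow]
    simp only [Nat.add_sub_cancel, nsmul_eq_mul, smul_eq_mul, Nat.cast_add, Nat.cast_one, hl']
    ring
  have h2 : ∀ a, D (a ^ (l + 2)) = 0 := by
    intro a
    rw [D.leibniz_pow]
    simp only [nsmul_eq_mul, hl, zero_mul]
  have h3 : ff l x0 x1 x2 x3 = x1 * x2 * ((x2 ^ (l + 1) - x1 ^ (l + 1))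
      * (x2 ^ (l + 1) - x1 ^ (l + 1)))
      + (x0 ^ (l + 2) - x0 * x1 ^ (l + 1)) * (x3 ^ (l + 2) - x3 * x2 ^ (l + 1)) := by
    simp only [ff]; ring
  rw [h3]
  simp only [map_add, map_sub, D.leibniz, h1, h2, g0, g1, g2, g3, smul_eq_mul]
  ring

lemma frob (l : ℕ) (x0 x1 x2 x3 : A) :
    g0 l x1 x2 x3 * x0 ^ (l + 2) + g1 l x0 x1 x2 x3 * x1 ^ (l + 2)
      + g2 l x0 x1 x2 x3 * x2 ^ (l + 2) + g3 l x0 x1 x2 * x3 ^ (l + 2)
      = ff l x0 x1 x2 x3 * -(x1 ^ (l + 1) + x2 ^ (l + 1)) := by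
  simp only [ff, g0, g1, g2, g3]
  ring

lemma ff_curve (l : ℕ) (s t : A) : ff l (s ^ 3) (s ^ 2 * t) (s * t ^ 2) (t ^ 3) = 0 := by
  simp only [ff]
  ring

lemma g3_curve (l : ℕ) (s t : A) : g3 l (s ^ 3) (s ^ 2 * t) (s * t ^ 2) =
    -(s ^ (l + 2) * (s ^ (2 * l + 4) * t ^ (2 * l + 2) * (s ^ (l + 1) - t ^ (l + 1)))) := by
  simp only [g3]
  ring

lemma g2_curve (l : ℕ) (s t : A) : g2 l (s ^ 3) (s ^ 2 * t) (s * t ^ 2) (t ^ 3) =
    (2 * s ^ (l + 1) * t + t ^ (l + 2))
      * (s ^ (2 * l + 4) * t ^ (2 * l + 2) * (s ^ (l + 1) - t ^ (l + 1))) := by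
  simp only [g2]
  ring

end Form

section Curve

/-- exponents of the parametrization -/
def e {m : ℕ} (j : Fin (m + 4)) : ℕ := if (j : ℕ) ≤ 3 then j else 0

lemma e_le {m : ℕ} (j : Fin (m + 4)) : e j ≤ 3 := by
  unfold e
  split_ifs <;> omega

lemma val_one' (m : ℕ) : ((1 : Fin (m + 4)) : ℕ) = 1 := by
  show 1 % (m + 4) = 1
  exact Nat.mod_eq_of_lt (by omega)
lemma val_two' (m : ℕ) : ((2 : Fin (m + 4)) : ℕ) = 2 := by
  show 2 % (m + 4) = 2
  exact Nat.mod_eq_of_lt (by omega)
lemma val_three' (m : ℕ) : ((3 : Fin (m + 4)) : ℕ) = 3 := by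
  show 3 % (m + 4) = 3
  exact Nat.mod_eq_of_lt (by omega)

lemma e_zero (m : ℕ) : e (0 : Fin (m + 4)) = 0 := by simp [e]
lemma e_one (m : ℕ) : e (1 : Fin (m + 4)) = 1 := by
  unfold e; rw [val_one']; norm_num
lemma e_two (m : ℕ) : e (2 : Fin (m + 4)) = 2 := by
  unfold e; rw [val_two']; norm_num
lemma e_three (m : ℕ) : e (3 : Fin (m + 4)) = 3 := by
  unfold e; rw [val_three']; norm_num

/-- the monomial parametrization -/
noncomputable def φ (k : Type*) [Field k] (m : ℕ) :
    MvPolynomial (Fin (m + 4)) k →ₐ[k] MvPolynomial (Fin 2) k :=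
  aeval fun j => X 0 ^ (3 - e j) * X 1 ^ e j

/-- the ideal of the curve -/
noncomputable def PP (k : Type*) [Field k] (m : ℕ) : Ideal (MvPolynomial (Fin (m + 4)) k) :=
  RingHom.ker (φ k m)

variable {k : Type*} [Field k] {m : ℕ}

lemma φ_isHomogeneous {F : MvPolynomial (Fin (m + 4)) k} {d : ℕ} (hF : F.IsHomogeneous d) :
    (φ k m F).IsHomogeneous (3 * d) := by
  refine hF.aeval _ fun j => ?_
  have h := ((isHomogeneous_X k (0 : Fin 2)).pow (3 - e j)).mul
    ((isHomogeneous_X k (1 : Fin 2)).pow (e j))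
  have h2 : 1 * (3 - e j) + 1 * e j = 3 := by
    have := e_le j
    omega
  rwa [h2] at h

lemma PP_homogeneous {F : MvPolynomial (Fin (m + 4)) k} (hF : F ∈ PP k m) (d : ℕ) :
    homogeneousComponent d F ∈ PP k m := by
  have h1 : φ k m F = ∑ i ∈ Finset.range (F.totalDegree + 1), φ k m (homogeneousComponent i F) := by
    rw [← map_sum, sum_homogeneousComponent]
  have h2 : φ k m F = 0 := hF
  rw [h2] at h1
  by_cases hd : d ∈ Finset.range (F.totalDegree + 1)
  · have h3 := congrArg (homogeneousComponent (3 * d)) h1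
    rw [map_zero, map_sum, Finset.sum_eq_single d] at h3
    · rw [homogeneousComponent_of_mem (φ_isHomogeneous (homogeneousComponent_isHomogeneous d F)),
        if_pos rfl] at h3
      exact h3.symm
    · intro i _ hi
      rw [homogeneousComponent_of_mem (φ_isHomogeneous (homogeneousComponent_isHomogeneous i F)),
        if_neg]
      omega
    · intro h
      exact absurd hd h
  · have : homogeneousComponent d F = 0 := by
      apply homogeneousComponent_eq_zero
      simp only [Finset.mem_range, not_lt] at hd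
      omega
    rw [this]
    exact Ideal.zero_mem _

lemma algebraicIndependent_cubes :
    AlgebraicIndependent k (fun i : Fin 2 => (X i ^ 3 : MvPolynomial (Fin 2) k)) := by
  have h : (aeval (fun i : Fin 2 => (X i ^ 3 : MvPolynomial (Fin 2) k)) :
      MvPolynomial (Fin 2) k →ₐ[k] MvPolynomial (Fin 2) k) = expand 3 := by
    ext i
    simp
  rw [AlgebraicIndependent, h]
  exact expand_injective (by norm_num)

lemma trdeg_PP : Algebra.trdeg k (MvPolynomial (Fin (m + 4)) k ⧸ PP k m) = 2 := by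
  have hinj : Function.Injective (Ideal.kerLiftAlg (φ k m)) := Ideal.kerLiftAlg_injective _
  apply le_antisymm
  · have h1 := trdeg_le_of_injective _ hinj
    rw [MvPolynomial.trdeg_of_isDomain] at h1
    simp only [Cardinal.mk_fin, Nat.cast_ofNat, Cardinal.lift_ofNat] at h1
    exact h1
  · have h2 : AlgebraicIndependent k (fun i : Fin 2 => (Ideal.Quotient.mk (PP k m)
        (X (if i = 0 then 0 else 3)) : MvPolynomial (Fin (m + 4)) k ⧸ PP k m)) := by
      apply AlgebraicIndependent.of_comp (Ideal.kerLiftAlg (φ k m))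
      convert algebraicIndependent_cubes (k := k) using 1
      funext i
      have h3 : (Ideal.kerLiftAlg (φ k m)) (Ideal.Quotient.mk (PP k m)
        (X (if i = 0 then 0 else 3))) = φ k m (X (if i = 0 then 0 else 3)) := rfl
      simp only [Function.comp]
      rw [h3]
      fin_cases i
      · simp [φ, e_zero]
      · simp [φ, e_three]
    have h3 := h2.lift_cardinalMk_le_trdeg
    simpa using h3

/-- the image of an exponent -/
noncomputable def im (d : Fin (m + 4) →₀ ℕ) : Fin 2 →₀ ℕ :=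
  Finsupp.single 0 (∑ j, (3 - e j) * d j) + Finsupp.single 1 (∑ j, e j * d j)

lemma φ_monomial (d : Fin (m + 4) →₀ ℕ) (c : k) : φ k m (monomial d c) =
    monomial (im d) c := by
  rw [φ, aeval_monomial, Finsupp.prod_fintype _ _ (fun i => by simp)]
  simp only [mul_pow, ← pow_mul, Finset.prod_mul_distrib, Finset.prod_pow_eq_pow_sum]
  rw [X_pow_eq_monomial, X_pow_eq_monomial, monomial_mul, algebraMap_eq, C_mul_monomial, im]
  simp

/-- a section of the map on exponents -/
noncomputable def sec (m : ℕ) (v : Fin 2 →₀ ℕ) : Fin (m + 4) →₀ ℕ :=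
  open Classical in if h : ∃ d : Fin (m + 4) →₀ ℕ, im d = v then h.choose else 0

lemma im_sec (d : Fin (m + 4) →₀ ℕ) : im (sec m (im d)) = im d := by
  classical
  have h : ∃ d' : Fin (m + 4) →₀ ℕ, im d' = im d := ⟨d, rfl⟩
  rw [sec, dif_pos h]
  exact h.choose_spec

lemma φ_map {Fq : Type*} [Field Fq] [Algebra Fq k] (F : MvPolynomial (Fin (m + 4)) Fq) :
    φ k m (map (algebraMap Fq k) F) = map (algebraMap Fq k) (φ Fq m F) := by
  have h : ((φ k m : MvPolynomial (Fin (m + 4)) k →+* MvPolynomial (Fin 2) k)).comp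
      (map (algebraMap Fq k)) = (map (algebraMap Fq k)).comp
      (φ Fq m : MvPolynomial (Fin (m + 4)) Fq →+* MvPolynomial (Fin 2) Fq) := by
    apply MvPolynomial.ringHom_ext
    · intro r
      simp [φ, algebraMap_eq]
    · intro i
      simp [φ]
  exact congrArg (fun g => g F) h

lemma PP_definedOver (Fq : Type*) [Field Fq] [Algebra Fq k] :
    PP k m = (PP Fq m).map (map (algebraMap Fq k)) := by
  apply le_antisymm
  · intro F hF
    have hF0 : φ k m F = 0 := hF
    let ψ : MvPolynomial (Fin 2) k →ₗ[k] MvPolynomial (Fin (m + 4)) k :=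
      (basisMonomials (Fin 2) k).constr k (fun v => monomial (sec m v) 1)
    have hψ : ∀ v (c : k), ψ (monomial v c) = monomial (sec m v) c := by
      intro v c
      have h1 : monomial v c = c • (basisMonomials (Fin 2) k v) := by
        rw [coe_basisMonomials, smul_monomial, smul_eq_mul, mul_one]
      rw [h1, map_smul, Module.Basis.constr_basis, smul_monomial, smul_eq_mul, mul_one]
    have h2 : ∑ d ∈ F.support, monomial (sec m (im d)) (coeff d F) = 0 := by
      have h3 := congrArg ψ hF0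
      rw [map_zero] at h3
      conv_lhs at h3 => rw [F.as_sum]
      rw [map_sum, map_sum] at h3
      simpa only [φ_monomial, hψ] using h3
    have h4 : F = ∑ d ∈ F.support, C (coeff d F) *
        map (algebraMap Fq k) (monomial d 1 - monomial (sec m (im d)) 1) := by
      simp only [map_sub, map_monomial, map_one, mul_sub, C_mul_monomial, mul_one,
        Finset.sum_sub_distrib]
      rw [h2, sub_zero]
      exact F.as_sum
    rw [h4]
    refine Ideal.sum_mem _ fun d _ => Ideal.mul_mem_left _ _ (Ideal.mem_map_of_mem _ ?_)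
    show φ Fq m _ = 0
    rw [map_sub, φ_monomial, φ_monomial, im_sec, sub_self]
  · rw [Ideal.map_le_iff_le_comap]
    intro F hF
    have hF0 : φ Fq m F = 0 := hF
    show φ k m (map (algebraMap Fq k) F) = 0
    rw [φ_map, hF0, map_zero]

end Curve

section Irred

open Polynomial in
lemma eisenstein_reversed {R : Type*} [CommRing R] [IsDomain R] {π : R} (hπ : Prime π)
    (f G H : R[X]) (hf : f = G * H) (h1 : ∀ i, 1 ≤ i → π ∣ f.coeff i) (h0 : ¬ π ∣ f.coeff 0)
    (hlc : ¬ π ^ 2 ∣ f.leadingCoeff) : G.natDegree = 0 ∨ H.natDegree = 0 := by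
  by_contra hcon
  rw [not_or] at hcon
  obtain ⟨hG, hH⟩ := hcon
  let I : Ideal R := Ideal.span {π}
  have hprime : I.IsPrime := (Ideal.span_singleton_prime hπ.ne_zero).2 hπ
  let q : R →+* R ⧸ I := Ideal.Quotient.mk I
  have hq : ∀ r, q r = 0 ↔ π ∣ r := by
    intro r
    rw [Ideal.Quotient.eq_zero_iff_mem, Ideal.mem_span_singleton]
  have hfq : f.map q = Polynomial.C (q (f.coeff 0)) := by
    ext i
    rw [Polynomial.coeff_map, Polynomial.coeff_C]
    split_ifs with hi
    · rw [hi]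
    · exact (hq _).2 (h1 i (by omega))
  have hne : Polynomial.C (q (f.coeff 0)) ≠ 0 := by
    rw [Ne, Polynomial.C_eq_zero, hq]
    exact h0
  have hmul : G.map q * H.map q = Polynomial.C (q (f.coeff 0)) := by
    rw [← hfq, hf, Polynomial.map_mul]
  have hGq : G.map q ≠ 0 := fun h => hne (by rw [← hmul, h, zero_mul])
  have hHq : H.map q ≠ 0 := fun h => hne (by rw [← hmul, h, mul_zero])
  have hdeg : (G.map q).natDegree + (H.map q).natDegree = 0 := by
    rw [← natDegree_mul hGq hHq, hmul, natDegree_C]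
  have hG1 : π ∣ G.leadingCoeff := by
    rw [← hq, Polynomial.leadingCoeff, ← Polynomial.coeff_map]
    apply coeff_eq_zero_of_natDegree_lt
    omega
  have hH1 : π ∣ H.leadingCoeff := by
    rw [← hq, Polynomial.leadingCoeff, ← Polynomial.coeff_map]
    apply coeff_eq_zero_of_natDegree_lt
    omega
  apply hlc
  rw [hf, leadingCoeff_mul, pow_two]
  exact mul_dvd_mul hG1 hH1

variable {k : Type*} [Field k] {m : ℕ}

/-- leading coefficient -/
noncomputable def AA (k : Type*) [Field k] (m l : ℕ) : MvPolynomial (Fin (m + 3)) k :=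
  X 2 ^ (l + 2) - X 2 * X 1 ^ (l + 1)

/-- constant coefficient -/
noncomputable def BB (k : Type*) [Field k] (m l : ℕ) : MvPolynomial (Fin (m + 3)) k :=
  X 0 * X 1 * (X 1 ^ (l + 1) - X 0 ^ (l + 1)) ^ 2

lemma ne01 : (0 : Fin (m + 3)) ≠ 1 := by
  intro h
  have := congrArg Fin.val h
  simp at this

lemma ne02 : (0 : Fin (m + 3)) ≠ 2 := by
  intro h
  have := congrArg Fin.val h
  have h2 : ((2 : Fin (m + 3)) : ℕ) = 2 := by
    show 2 % (m + 3) = 2
    exact Nat.mod_eq_of_lt (by omega)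
  rw [h2] at this
  simp at this

lemma ne12 : (1 : Fin (m + 3)) ≠ 2 := by
  intro h
  have := congrArg Fin.val h
  have h2 : ((2 : Fin (m + 3)) : ℕ) = 2 := by
    show 2 % (m + 3) = 2
    exact Nat.mod_eq_of_lt (by omega)
  have h1 : ((1 : Fin (m + 3)) : ℕ) = 1 := by
    show 1 % (m + 3) = 1
    exact Nat.mod_eq_of_lt (by omega)
  rw [h2, h1] at this
  omega

/-- a test point with coordinates at `0, 1, 2` -/
def tp (a b c : k) : Fin (m + 3) → k := fun i => if i = 0 then a else if i = 1 then b else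
  if i = 2 then c else 0

lemma tp0 (a b c : k) : (tp a b c : Fin (m + 3) → k) 0 = a := by simp [tp]
lemma tp1 (a b c : k) : (tp a b c : Fin (m + 3) → k) 1 = b := by simp [tp]
lemma tp2 (a b c : k) : (tp a b c : Fin (m + 3) → k) 2 = c := by
  simp [tp, ne02.symm, ne12.symm]

lemma eval_AA (l : ℕ) (a b c : k) :
    eval (tp a b c) (AA k m l) = c ^ (l + 2) - c * b ^ (l + 1) := by
  simp [AA, tp1, tp2]

lemma eval_BB (l : ℕ) (a b c : k) :
    eval (tp a b c) (BB k m l) = a * b * (b ^ (l + 1) - a ^ (l + 1)) ^ 2 := by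
  simp [BB, tp0, tp1]

lemma not_X_dvd {F : MvPolynomial (Fin (m + 3)) k} (i : Fin (m + 3)) (v : Fin (m + 3) → k)
    (hv : v i = 0) (h : eval v F ≠ 0) : ¬ X i ∣ F := by
  rintro ⟨G, rfl⟩
  apply h
  rw [map_mul, eval_X, hv, zero_mul]

lemma isUnit_of_dvd (l : ℕ) {g : MvPolynomial (Fin (m + 3)) k} (hA : g ∣ AA k m l)
    (hB : g ∣ BB k m l) (hA0 : AA k m l ≠ 0) : IsUnit g := by
  by_contra hg
  have hg0 : g ≠ 0 := fun h => hA0 (zero_dvd_iff.1 (h ▸ hA))
  obtain ⟨π, hπ, hπg⟩ := WfDvdMonoid.exists_irreducible_factor hg hg0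
  have hp : Prime π := hπ.prime
  have hπA := hπg.trans hA
  have hπB := hπg.trans hB
  have nA0 : ¬ (X 0 : MvPolynomial (Fin (m + 3)) k) ∣ AA k m l :=
    not_X_dvd 0 (tp 0 0 1) (tp0 _ _ _) (by rw [eval_AA]; simp)
  have nA1 : ¬ (X 1 : MvPolynomial (Fin (m + 3)) k) ∣ AA k m l :=
    not_X_dvd 1 (tp 0 0 1) (tp1 _ _ _) (by rw [eval_AA]; simp)
  have key : ∀ i : Fin (m + 3), π ∣ X i → ¬ (X i : MvPolynomial (Fin (m + 3)) k) ∣ AA k m l →
      False := by
    intro i hi hn
    have hassoc : Associated π (X i) := hπ.associated_of_dvd (X_prime).irreducible hi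
    exact hn (hassoc.symm.dvd.trans hπA)
  rcases hp.dvd_or_dvd hπB with h | h
  · rcases hp.dvd_or_dvd h with h | h
    · exact key 0 h nA0
    · exact key 1 h nA1
  · have hD := hp.dvd_of_dvd_pow h
    -- `π` does not involve the variable `0`
    have hdeg : degreeOf 0 π = 0 := by
      obtain ⟨H, hH⟩ := hπA
      have hH0 : H ≠ 0 := fun h => hA0 (by rw [hH, h, mul_zero])
      have h1 : degreeOf 0 (AA k m l) = degreeOf 0 π + degreeOf 0 H := by
        rw [hH, degreeOf_mul_eq hπ.ne_zero hH0]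
      have h2 : degreeOf 0 (AA k m l) = 0 := by
        apply Nat.eq_zero_of_le_zero
        refine (degreeOf_sub_le _ _ _).trans ?_
        apply max_le
        · refine (degreeOf_pow_le _ _ _).trans ?_
          rw [degreeOf_X_of_ne ne02, mul_zero]
        · refine (degreeOf_mul_le _ _ _).trans ?_
          refine (Nat.add_le_add_left (degreeOf_pow_le _ _ _) _).trans ?_
          rw [degreeOf_X_of_ne ne02, degreeOf_X_of_ne ne01, mul_zero]
          rfl
      omega
    let σ : MvPolynomial (Fin (m + 3)) k →ₐ[k] MvPolynomial (Fin (m + 3)) k :=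
      aeval fun i => if i = 0 then 0 else X i
    have hσπ : σ π = π := by
      have : (σ : MvPolynomial (Fin (m + 3)) k →+* MvPolynomial (Fin (m + 3)) k) π
          = RingHom.id (MvPolynomial (Fin (m + 3)) k) π := by
        apply MvPolynomial.hom_congr_vars
        · ext r
          simp [σ, algebraMap_eq]
        · intro i hi _
          have hi0 : i ≠ 0 := by
            rintro rfl
            exact (mem_vars_iff_degreeOf_ne_zero.1 hi) hdeg
          simp [σ, hi0]
        · rfl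
      simpa using this
    have h3 : σ π ∣ σ (X 1 ^ (l + 1) - X 0 ^ (l + 1)) := map_dvd σ hD
    rw [hσπ] at h3
    have h4 : σ (X 1 ^ (l + 1) - X 0 ^ (l + 1)) = X 1 ^ (l + 1) := by
      simp [σ, ne01.symm]
    rw [h4] at h3
    exact key 1 (hp.dvd_of_dvd_pow h3) nA1

lemma succ0 : (1 : Fin (m + 4)) = Fin.succ (0 : Fin (m + 3)) := by
  apply Fin.ext
  rw [val_one', Fin.val_succ]; simp
lemma succ1 : (2 : Fin (m + 4)) = Fin.succ (1 : Fin (m + 3)) := by
  apply Fin.ext
  have h1 : ((1 : Fin (m + 3)) : ℕ) = 1 := by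
    show 1 % (m + 3) = 1
    exact Nat.mod_eq_of_lt (by omega)
  rw [val_two', Fin.val_succ, h1]
lemma succ2 : (3 : Fin (m + 4)) = Fin.succ (2 : Fin (m + 3)) := by
  apply Fin.ext
  have h1 : ((2 : Fin (m + 3)) : ℕ) = 2 := by
    show 2 % (m + 3) = 2
    exact Nat.mod_eq_of_lt (by omega)
  rw [val_three', Fin.val_succ, h1]

lemma irreducible_ff (l : ℕ) :
    Irreducible (ff l (X 0) (X 1) (X 2) (X 3) : MvPolynomial (Fin (m + 4)) k) := by
  set R := MvPolynomial (Fin (m + 3)) k with hR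
  set A : R := AA k m l with hA
  set B : R := BB k m l with hB
  have hA0 : A ≠ 0 := by
    intro h
    have h2 := congrArg (eval (tp 0 0 1)) h
    rw [hA, eval_AA] at h2
    simp at h2
  let f : Polynomial R := Polynomial.C A * Polynomial.X ^ (l + 2)
    - Polynomial.C (A * X 0 ^ (l + 1)) * Polynomial.X + Polynomial.C B
  have hf : finSuccEquiv k (m + 3) (ff l (X 0) (X 1) (X 2) (X 3)) = f := by
    have h1 := map_ff ((finSuccEquiv k (m + 3) : MvPolynomial (Fin (m + 4)) k →+*
      Polynomial (MvPolynomial (Fin (m + 3)) k))) l (X 0) (X 1) (X 2) (X 3)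
    have h2 : (finSuccEquiv k (m + 3)) (ff l (X 0) (X 1) (X 2) (X 3))
      = ff l (finSuccEquiv k (m + 3) (X 0)) (finSuccEquiv k (m + 3) (X 1))
        (finSuccEquiv k (m + 3) (X 2)) (finSuccEquiv k (m + 3) (X 3)) := h1
    rw [h2, finSuccEquiv_X_zero, succ0, succ1, succ2, finSuccEquiv_X_succ, finSuccEquiv_X_succ,
      finSuccEquiv_X_succ]
    simp only [f, hA, hB, ff, AA, BB, map_sub, map_mul, map_pow]
    ring
  have hc0 : f.coeff 0 = B := by
    simp [f]
  have hctop : f.coeff (l + 2) = A := by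
    have h1 : l + 2 ≠ 0 := by omega
    have h2 : (1 : ℕ) ≠ l + 2 := by omega
    simp only [f, Polynomial.coeff_add, Polynomial.coeff_sub, Polynomial.coeff_C_mul,
      Polynomial.coeff_X_pow, Polynomial.coeff_X, Polynomial.coeff_C, if_neg h1, if_neg h2,
      if_true, mul_one, mul_zero, add_zero, sub_zero]
  have hc1 : ∀ i, 1 ≤ i → A ∣ f.coeff i := by
    intro i hi
    have hi0 : i ≠ 0 := by omega
    simp only [f, Polynomial.coeff_add, Polynomial.coeff_sub, Polynomial.coeff_C_mul,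
      Polynomial.coeff_C, if_neg hi0, add_zero]
    exact dvd_sub (Dvd.intro _ rfl) (Dvd.intro _ (mul_assoc _ _ _).symm)
  have hdeg : f.natDegree = l + 2 := by
    apply Polynomial.natDegree_eq_of_le_of_coeff_ne_zero
    · refine (Polynomial.natDegree_add_le _ _).trans (max_le
        ((Polynomial.natDegree_sub_le _ _).trans (max_le ?_ ?_)) ?_)
      · exact Polynomial.natDegree_C_mul_X_pow_le _ _
      · exact (Polynomial.natDegree_C_mul_le _ _).trans (Polynomial.natDegree_X_le.trans (by omega))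
      · simp
    · rw [hctop]; exact hA0
  have hlc : f.leadingCoeff = A := by rw [Polynomial.leadingCoeff, hdeg, hctop]
  have hirr : Irreducible f := by
    have hunit : ¬ IsUnit f := by
      intro h
      have := Polynomial.natDegree_eq_zero_of_isUnit h
      omega
    refine ⟨hunit, ?_⟩
    intro G H hGH
    have hX2 : (X 2 : R) ∣ A := ⟨X 2 ^ (l + 1) - X 1 ^ (l + 1), by rw [hA, AA]; ring⟩
    have key := eisenstein_reversed (π := (X 2 : R)) X_prime f G H hGH
      (fun i hi => hX2.trans (hc1 i hi))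
      (by
        rw [hc0]
        rintro ⟨W, hW⟩
        let σ : MvPolynomial (Fin (m + 3)) k →ₐ[k] MvPolynomial (Fin (m + 3)) k :=
          aeval fun i => if i = 2 then 0 else X i
        have h1 : σ B = B := by
          simp [σ, hB, BB, ne02, ne12]
        have h2 : σ B = 0 := by
          rw [hW]; simp [σ]
        rw [h1] at h2
        rw [hB, BB] at h2
        rcases mul_eq_zero.1 h2 with h3 | h3
        · exact mul_ne_zero (X_ne_zero _) (X_ne_zero _) h3
        · have h4 := congrArg (eval (tp 0 1 0)) (pow_eq_zero_iff (two_ne_zero) |>.1 h3)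
          simp only [map_sub, map_pow, eval_X, tp0, tp1, map_zero] at h4
          simp at h4)
      (by
        rw [hlc]
        rintro ⟨W, hW⟩
        have h5 : (X 2 : R) * (X 2 ^ (l + 1) - X 1 ^ (l + 1) - X 2 * W) = 0 := by
          have : A = X 2 * (X 2 ^ (l + 1) - X 1 ^ (l + 1)) := by rw [hA, AA]; ring
          rw [this] at hW
          linear_combination hW
        rcases mul_eq_zero.1 h5 with h6 | h6
        · exact X_ne_zero _ h6
        · have h7 := congrArg (eval (tp 0 1 0)) h6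
          simp only [map_sub, map_mul, map_pow, eval_X, tp1, tp2, map_zero] at h7
          simp at h7)
    have fin : ∀ G H : Polynomial R, f = G * H → G.natDegree = 0 → IsUnit G := by
      intro G H hGH hG
      obtain ⟨g, rfl⟩ : ∃ g, G = Polynomial.C g := ⟨_, Polynomial.eq_C_of_natDegree_eq_zero hG⟩
      have hgA : g ∣ A := ⟨H.coeff (l + 2), by rw [← hctop, hGH, Polynomial.coeff_C_mul]⟩
      have hgB : g ∣ B := ⟨H.coeff 0, by rw [← hc0, hGH, Polynomial.coeff_C_mul]⟩
      exact Polynomial.isUnit_C.2 (isUnit_of_dvd l hgA hgB hA0)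
    rcases key with h | h
    · exact Or.inl (fin G H hGH h)
    · exact Or.inr (fin H G (by rw [hGH, mul_comm]) h)
  rw [← MulEquiv.irreducible_iff (finSuccEquiv k (m + 3)), hf]
  exact hirr

end Irred

section Main

/-- the form of the hypersurface -/
noncomputable def FF (R : Type*) [CommRing R] (m l : ℕ) : MvPolynomial (Fin (m + 4)) R :=
  ff l (X 0) (X 1) (X 2) (X 3)

lemma FF_isHomogeneous (R : Type*) [CommRing R] (m l : ℕ) :
    (FF R m l).IsHomogeneous (2 * l + 4) := by
  have hx : ∀ (i : Fin (m + 4)) (r : ℕ), (X i ^ r : MvPolynomial (Fin (m + 4)) R).IsHomogeneous r :=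
    fun i r => isHomogeneous_X_pow i r
  have h1 : ∀ i : Fin (m + 4), (X i : MvPolynomial (Fin (m + 4)) R).IsHomogeneous 1 :=
    fun i => isHomogeneous_X _ _
  have t1 : (X 1 * X 2 * (X 2 ^ (l + 1) - X 1 ^ (l + 1)) ^ 2 :
      MvPolynomial (Fin (m + 4)) R).IsHomogeneous (2 * l + 4) := by
    have := ((h1 1).mul (h1 2)).mul (((hx 2 (l + 1)).sub (hx 1 (l + 1))).pow 2)
    convert this using 1
    ring
  have t2 : ∀ i j : Fin (m + 4), (X i ^ (l + 2) - X i * X j ^ (l + 1) :
      MvPolynomial (Fin (m + 4)) R).IsHomogeneous (l + 2) := by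
    intro i j
    refine (hx i (l + 2)).sub ?_
    have := (h1 i).mul (hx j (l + 1))
    convert this using 1
    ring
  have t3 := (t2 0 1).mul (t2 3 2)
  have t4 : l + 2 + (l + 2) = 2 * l + 4 := by ring
  rw [t4] at t3
  exact t1.add t3

lemma map_FF {R S : Type*} [CommRing R] [CommRing S] (g : R →+* S) (m l : ℕ) :
    map g (FF R m l) = FF S m l := by
  rw [FF, map_ff, map_X, map_X, map_X, map_X, FF]

lemma X_ne {m : ℕ} {i j : ℕ} (hi : i < 4) (hj : j < 4) (hij : i ≠ j) :
    (Fin.ofNat (m + 4) i) ≠ Fin.ofNat (m + 4) j := by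
  intro h
  have h1 := congrArg Fin.val h
  simp only [Fin.ofNat] at h1
  rw [Nat.mod_eq_of_lt (by omega), Nat.mod_eq_of_lt (by omega)] at h1
  exact hij h1

lemma FF_dvd (Fq : Type*) [Field Fq] (m l : ℕ) (hl : ((l + 2 : ℕ) : Fq) = 0) :
    FF Fq m l ∣ ∑ i, X i ^ (l + 2) * pderiv i (FF Fq m l) := by
  let D : Derivation Fq (MvPolynomial (Fin (m + 4)) Fq) (MvPolynomial (Fin (m + 4)) Fq) :=
    ∑ i, (X i ^ (l + 2) : MvPolynomial (Fin (m + 4)) Fq) • pderiv i
  have hD : ∀ G, D G = ∑ i, X i ^ (l + 2) * pderiv i G := by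
    intro G
    have h1 := congrFun (map_sum (Derivation.coeFnAddMonoidHom : Derivation Fq
      (MvPolynomial (Fin (m + 4)) Fq) (MvPolynomial (Fin (m + 4)) Fq) →+ _)
      (fun i => (X i ^ (l + 2) : MvPolynomial (Fin (m + 4)) Fq) • pderiv i) Finset.univ) G
    rw [Finset.sum_apply] at h1
    exact h1
  have hDX : ∀ j, D (X j) = X j ^ (l + 2) := by
    intro j
    rw [hD, Finset.sum_eq_single j]
    · rw [pderiv_X_self, mul_one]
    · intro i _ hi
      rw [pderiv_X_of_ne hi.symm, mul_zero]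
    · intro h
      exact absurd (Finset.mem_univ j) h
  have hl' : ((l + 2 : ℕ) : MvPolynomial (Fin (m + 4)) Fq) = 0 := by
    rw [← map_natCast (C : Fq →+* MvPolynomial (Fin (m + 4)) Fq), hl, map_zero]
  rw [← hD, FF, chain D l hl', hDX, hDX, hDX, hDX, frob]
  exact Dvd.intro _ rfl

lemma φ_ff (k : Type*) [Field k] (m l : ℕ) : φ k m (FF k m l) = 0 := by
  have h := map_ff (φ k m : MvPolynomial (Fin (m + 4)) k →+* MvPolynomial (Fin 2) k) l
    (X 0) (X 1) (X 2) (X 3)
  have h2 : φ k m (FF k m l) = ff l (φ k m (X 0)) (φ k m (X 1)) (φ k m (X 2)) (φ k m (X 3)) := h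
  have h0 : φ k m (X 0) = X 0 ^ 3 := by simp [φ, e_zero]
  have h1 : φ k m (X 1) = X 0 ^ 2 * X 1 := by simp [φ, e_one]
  have h3 : φ k m (X 2) = X 0 * X 1 ^ 2 := by simp [φ, e_two]
  have h4 : φ k m (X 3) = X 1 ^ 3 := by simp [φ, e_three]
  rw [h2, h0, h1, h3, h4, ff_curve]

lemma ne_lit {m : ℕ} : (0 : Fin (m + 4)) ≠ 2 ∧ (1 : Fin (m + 4)) ≠ 2 ∧ (3 : Fin (m + 4)) ≠ 2 ∧
    (0 : Fin (m + 4)) ≠ 3 ∧ (1 : Fin (m + 4)) ≠ 3 ∧ (2 : Fin (m + 4)) ≠ 3 := by
  refine ⟨?_, ?_, ?_, ?_, ?_, ?_⟩ <;>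
  · intro h
    have := congrArg Fin.val h
    simp only [val_one', val_two', val_three', Fin.val_zero] at this
    omega

lemma pderiv_two (k : Type*) [Field k] (m l : ℕ) (hl : ((l + 2 : ℕ) : k) = 0) :
    pderiv 2 (FF k m l) = g2 l (X 0) (X 1) (X 2) (X 3) := by
  have hl' : ((l + 2 : ℕ) : MvPolynomial (Fin (m + 4)) k) = 0 := by
    rw [← map_natCast (C : k →+* MvPolynomial (Fin (m + 4)) k), hl, map_zero]
  rw [FF, chain (pderiv 2) l hl', pderiv_X_of_ne ne_lit.1, pderiv_X_of_ne ne_lit.2.1,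
    pderiv_X_of_ne ne_lit.2.2.1, pderiv_X_self]
  ring

lemma pderiv_three (k : Type*) [Field k] (m l : ℕ) (hl : ((l + 2 : ℕ) : k) = 0) :
    pderiv 3 (FF k m l) = g3 l (X 0) (X 1) (X 2) := by
  have hl' : ((l + 2 : ℕ) : MvPolynomial (Fin (m + 4)) k) = 0 := by
    rw [← map_natCast (C : k →+* MvPolynomial (Fin (m + 4)) k), hl, map_zero]
  rw [FF, chain (pderiv 3) l hl', pderiv_X_of_ne ne_lit.2.2.2.1, pderiv_X_of_ne ne_lit.2.2.2.2.1,
    pderiv_X_of_ne ne_lit.2.2.2.2.2, pderiv_X_self]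
  ring

/-- common factor -/
noncomputable def WW (k : Type*) [Field k] (l : ℕ) : MvPolynomial (Fin 2) k :=
  X 0 ^ (2 * l + 4) * X 1 ^ (2 * l + 2) * (X 0 ^ (l + 1) - X 1 ^ (l + 1))

lemma WW_ne_zero (k : Type*) [Field k] (l : ℕ) : WW k l ≠ 0 := by
  refine mul_ne_zero (mul_ne_zero (pow_ne_zero _ (X_ne_zero _)) (pow_ne_zero _ (X_ne_zero _))) ?_
  intro h
  have := congrArg (eval (![1, 0] : Fin 2 → k)) h
  simp at this

lemma φ_pderiv_two (k : Type*) [Field k] (m l : ℕ) (hl : ((l + 2 : ℕ) : k) = 0) :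
    φ k m (pderiv 2 (FF k m l)) = (2 * X 0 ^ (l + 1) * X 1 + X 1 ^ (l + 2)) * WW k l := by
  rw [pderiv_two k m l hl]
  have h0 : φ k m (X 0) = X 0 ^ 3 := by simp [φ, e_zero]
  have h1 : φ k m (X 1) = X 0 ^ 2 * X 1 := by simp [φ, e_one]
  have h3 : φ k m (X 2) = X 0 * X 1 ^ 2 := by simp [φ, e_two]
  have h4 : φ k m (X 3) = X 1 ^ 3 := by simp [φ, e_three]
  rw [WW, ← g2_curve]
  simp only [g2, map_add, map_sub, map_neg, map_mul, map_pow, h0, h1, h3, h4]

lemma φ_pderiv_three (k : Type*) [Field k] (m l : ℕ) (hl : ((l + 2 : ℕ) : k) = 0) :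
    φ k m (pderiv 3 (FF k m l)) = -(X 0 ^ (l + 2) * WW k l) := by
  rw [pderiv_three k m l hl]
  have h0 : φ k m (X 0) = X 0 ^ 3 := by simp [φ, e_zero]
  have h1 : φ k m (X 1) = X 0 ^ 2 * X 1 := by simp [φ, e_one]
  have h3 : φ k m (X 2) = X 0 * X 1 ^ 2 := by simp [φ, e_two]
  rw [WW, ← g3_curve]
  simp only [g3, map_sub, map_neg, map_mul, map_pow, h0, h1, h3]

lemma pderiv_three_notMem (k : Type*) [Field k] (m l : ℕ) (hl : ((l + 2 : ℕ) : k) = 0) :
    pderiv 3 (FF k m l) ∉ PP k m := by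
  intro h
  have h1 : φ k m (pderiv 3 (FF k m l)) = 0 := h
  rw [φ_pderiv_three k m l hl, neg_eq_zero] at h1
  exact mul_ne_zero (pow_ne_zero _ (X_ne_zero _)) (WW_ne_zero k l) h1

lemma not_inseparable (k : Type*) [Field k] (p : ℕ) [CharP k p] (hp : 3 < p) (m l : ℕ)
    (hl : ((l + 2 : ℕ) : k) = 0) : ¬ GaussInseparableOn p (FF k m l) (PP k m) := by
  intro h
  obtain ⟨_, a, b, _, _, hb, hab⟩ := h 2 3 (pderiv_three_notMem k m l hl)
  apply hb
  have h1 : φ k m (pderiv 2 (FF k m l) * b ^ p - pderiv 3 (FF k m l) * a ^ p) = 0 := hab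
  rw [map_sub, map_mul, map_mul, map_pow, map_pow, φ_pderiv_two k m l hl,
    φ_pderiv_three k m l hl] at h1
  set A := φ k m a
  set B := φ k m b
  have h2 : (2 * X 0 ^ (l + 1) * X 1 + X 1 ^ (l + 2)) * B ^ p + X 0 ^ (l + 2) * A ^ p = 0 := by
    have h3 : WW k l * ((2 * X 0 ^ (l + 1) * X 1 + X 1 ^ (l + 2)) * B ^ p
        + X 0 ^ (l + 2) * A ^ p) = 0 := by
      linear_combination h1
    rcases mul_eq_zero.1 h3 with h4 | h4
    · exact absurd h4 (WW_ne_zero k l)
    · exact h4
  have hp0 : ((p : ℕ) : MvPolynomial (Fin 2) k) = 0 := by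
    rw [← map_natCast (C : k →+* MvPolynomial (Fin 2) k), CharP.cast_eq_zero, map_zero]
  have hl' : ((l + 2 : ℕ) : MvPolynomial (Fin 2) k) = 0 := by
    rw [← map_natCast (C : k →+* MvPolynomial (Fin 2) k), hl, map_zero]
  have hDp : ∀ G : MvPolynomial (Fin 2) k, pderiv 1 (G ^ p) = 0 := by
    intro G
    rw [Derivation.leibniz_pow, nsmul_eq_mul, hp0, zero_mul]
  have hDq : ∀ G : MvPolynomial (Fin 2) k, pderiv 1 (G ^ (l + 2)) = 0 := by
    intro G
    rw [Derivation.leibniz_pow, nsmul_eq_mul, hl', zero_mul]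
  have hD0 : pderiv 1 ((X 0 : MvPolynomial (Fin 2) k) ^ (l + 1)) = 0 := by
    rw [Derivation.leibniz_pow, pderiv_X_of_ne (by decide)]
    simp
  have hD2 : pderiv 1 (2 : MvPolynomial (Fin 2) k) = 0 := by
    have : (2 : MvPolynomial (Fin 2) k) = C 2 := (map_ofNat C 2).symm
    rw [this, pderiv_C]
  have h5 := congrArg (pderiv 1) h2
  rw [map_add, map_zero] at h5
  simp only [Derivation.leibniz, map_add, hDp, hDq, hD0, hD2, pderiv_X_self, smul_eq_mul, mul_zero,
    add_zero, zero_add, mul_one] at h5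
  have h6 : (2 : MvPolynomial (Fin 2) k) ≠ 0 := by
    have : (2 : MvPolynomial (Fin 2) k) = C 2 := (map_ofNat C 2).symm
    rw [this, Ne, C_eq_zero]
    intro h
    have h7 : ((2 : ℕ) : k) = 0 := by exact_mod_cast h
    have h8 := (CharP.cast_eq_zero_iff k p 2).1 h7
    have := Nat.le_of_dvd (by norm_num) h8
    omega
  have h9 : B = 0 := by
    have h10 : B ^ p = 0 := by
      rcases mul_eq_zero.1 h5 with h11 | h11
      · exact h11
      · exact absurd h11 (mul_ne_zero h6 (pow_ne_zero _ (X_ne_zero _)))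
    exact pow_eq_zero_iff (by omega) |>.1 h10
  exact h9

end Main

/-- For every `n ≥ 3`, every prime `p > n`, every finite field `Fq` of characteristic `p` and every
algebraic closure `k` of `Fq` there is a form `F` over `Fq`, irreducible over `k`, whose
hypersurface in projective `n`-space is Frobenius nonclassical and contains an irreducible curve
defined over `Fq`, not contained in the indeterminacy locus of the Gauss map, on which the Gauss
map is not inseparable. -/
theorem result (n p : ℕ) [Fact p.Prime] (hn : 3 ≤ n) (hp : n < p) (Fq k : Type*) [Field Fq]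
    [Fintype Fq] [CharP Fq p] [Field k] [Algebra Fq k] [IsAlgClosure Fq k] :
    ∃ F : MvPolynomial (Fin (n + 1)) Fq, IsFrobeniusNonclassical Fq k F ∧
      Irreducible (map (algebraMap Fq k) F) ∧
      ∃ P : Ideal (MvPolynomial (Fin (n + 1)) k), IsIrreducibleCurve P ∧ IsDefinedOver Fq P ∧
        map (algebraMap Fq k) F ∈ P ∧ (∃ i, pderiv i (map (algebraMap Fq k) F) ∉ P) ∧
        ¬ GaussInseparableOn p (map (algebraMap Fq k) F) P := by
  obtain ⟨m, rfl⟩ : ∃ m, n = m + 3 := ⟨n - 3, by omega⟩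
  have hcard := Fintype.one_lt_card (α := Fq)
  obtain ⟨l, hl⟩ : ∃ l, Fintype.card Fq = l + 2 := ⟨Fintype.card Fq - 2, by omega⟩
  have hl0 : ((l + 2 : ℕ) : Fq) = 0 := by rw [← hl]; exact Nat.cast_card_eq_zero Fq
  have hlk : ((l + 2 : ℕ) : k) = 0 := by
    rw [← map_natCast (algebraMap Fq k), hl0, map_zero]
  have : CharP k p := charP_of_injective_algebraMap (algebraMap Fq k).injective p
  have hirr : Irreducible (map (algebraMap Fq k) (FF Fq m l)) := by
    rw [map_FF]; exact irreducible_ff l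
  refine ⟨FF Fq m l, ⟨⟨2 * l + 4, by omega, FF_isHomogeneous _ _ _⟩, hirr.squarefree, ?_⟩, hirr,
    PP k m, ⟨RingHom.ker_isPrime _, fun F hF d => PP_homogeneous hF d, trdeg_PP⟩,
    ⟨PP Fq m, PP_definedOver Fq⟩, ?_, ⟨3, ?_⟩, ?_⟩
  · rw [hl]; exact FF_dvd Fq m l hl0
  · rw [map_FF]; exact φ_ff k m l
  · rw [map_FF]; exact pderiv_three_notMem k m l hlk
  · rw [map_FF]; exact not_inseparable k p (by omega) m l hlk

end Pool.Agent.Results.MP_291982_ag.TwistedCubic
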